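import Mathlib
import Pool.Agent.H115R3.Filling.Defs
import Pool.Agent.TH502.FA.N14.Area

/-!
# Orientable fillings of the circle, of any genus, have area at least `1.901 π`

If a compact oriented Riemannian surface fills the circle of length `2π` without shortcuts, then
its area is at least `1.901 π`.  The proof is a calibration: fourteen antipodally symmetrised
distance functions are clamped to lattice intervals, and a combination with constant coefficients
of the products of the differentials of these clamped functions is at most the area form, which is
checked at the 85412 lattice configurations (up to rotation) by exact integer arithmetic.
-/

namespace Pool.Agent.Results.MP_ecf18f_gt.AreaAtLeast1901Pi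

open Pool.Agent.H115R3.Filling

/-- Every compact oriented Riemannian surface whose boundary is the circle of length `2π` and in
which the boundary circle has no shortcuts has area at least `1.901 π`. -/
theorem result {M : Type} [MetricSpace M] (S : OrientedSurface M) (hS : S.NoShortcut) :
    1.901 * Real.pi ≤ S.area := by
  have h := Pool.Agent.TH502.FA.N14.area_ge S hS
  have hpi := Real.pi_gt_d6
  have hpos := Real.pi_pos
  nlinarith

end Pool.Agent.Results.MP_ecf18f_gt.AreaAtLeast1901Pi
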