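import Mathlib
import Pool.Agent.TH172.FA.Fin

/-!
# Area times energy for orientable fillings of the circle, of every genus

Let `M` be a compact orientable Riemannian surface, of any genus, whose boundary is the circle of
length `2π` and which has no shortcuts (in particular any isometric filling of the circle).  Let
`w` be a Lipschitz map of `M` to the unit sphere of a Euclidean space `V` of any dimension, which is
odd on the boundary: `w (x + π) = - w x`.  Then

* `∫_M √e(w) dA ≥ 2π`, and
* `Area(M) · Energy(w) ≥ (2π)²`,

where `e(w) = |dw|² / 2` is the energy density, so that `Energy(w) = ∫_M e(w) dA` is the Dirichlet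
energy, a conformal invariant.  Both are equalities for the round hemisphere and its inclusion in
the round sphere.

The proof is an integral geometric argument that does not see the genus: for every vector `v` the
steep odd function `ψ_n⟨w, v⟩` is paired, by Stokes' theorem, with a `1`-Lipschitz extension to `M`
of the primitive of its boundary values, which gives `∮ ψ_n⟨w, v⟩² ≤ ∫_M |∇ ψ_n⟨w, v⟩|` (in the
limit: the zero set of `⟨w, v⟩` has length at least `π`); this is averaged over Gaussian `v`.
-/

open Pool.Agent.H115R3.Filling MeasureTheory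

namespace Pool.Agent.Results.MP_ecf18f_gt.AreaEnergy

open Real

variable {M : Type} [MetricSpace M] (S : OrientedSurface M)
variable {V : Type} [NormedAddCommGroup V] [InnerProductSpace ℝ V]

/-- The first partial derivative of `w` in the chart of the `k`-th face. -/
noncomputable def d1 (w : M → V) (k : Fin S.faces) (p : ℝ × ℝ) : V :=
  fderiv ℝ (fun q => w (S.chart k q)) p (1, 0)

/-- The second partial derivative of `w` in the chart of the `k`-th face. -/
noncomputable def d2 (w : M → V) (k : Fin S.faces) (p : ℝ × ℝ) : V :=
  fderiv ℝ (fun q => w (S.chart k q)) p (0, 1)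

/-- `G |w_x|² - 2 F ⟨w_x, w_y⟩ + E |w_y|²`, which is `|dw|²` times the determinant `E G - F²` of
the metric `E dx² + 2 F dx dy + G dy²`. -/
noncomputable def dirichlet (w : M → V) (k : Fin S.faces) (p : ℝ × ℝ) : ℝ :=
  (S.metric k).G p * ‖d1 S w k p‖ ^ 2
    - 2 * (S.metric k).F p * inner ℝ (d1 S w k p) (d2 S w k p)
    + (S.metric k).E p * ‖d2 S w k p‖ ^ 2

/-- The Dirichlet energy `∫_M |dw|² / 2`. -/
noncomputable def energy (w : M → V) : ℝ :=
  ∑ k, ∫ p in Sq, dirichlet S w k p
    / (2 * √((S.metric k).E p * (S.metric k).G p - (S.metric k).F p ^ 2))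

/-- The integral over `M` of the square root of the energy density `|dw|² / 2`. -/
noncomputable def rootEnergy (w : M → V) : ℝ :=
  ∑ k, ∫ p in Sq, √(dirichlet S w k p / 2)

/-- **Main theorem.**  For every compact oriented surface without shortcuts between the points of
its boundary circle of length `2π`, and every Lipschitz map `w` to the unit sphere of a Euclidean
space that is odd on the boundary circle, `∫_M √e(w) ≥ 2π` and `Area(M) · Energy(w) ≥ (2π)²`. -/
theorem result {M : Type} [MetricSpace M] (S : OrientedSurface M) (hS : S.NoShortcut)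
    {V : Type} [NormedAddCommGroup V] [InnerProductSpace ℝ V] [FiniteDimensional ℝ V]
    (w : M → V) (K : ℝ) (hK : ∀ x y, ‖w x - w y‖ ≤ K * dist x y) (h1 : ∀ x, ‖w x‖ = 1)
    (hodd : ∀ t : AddCircle (2 * π),
      w (S.boundary (t + ((π : ℝ) : AddCircle (2 * π)))) = - w (S.boundary t)) :
    2 * π ≤ rootEnergy S w ∧ (2 * π) ^ 2 ≤ S.area * energy S w := by
  borelize V
  have hK' : ∀ x y, ‖w x - w y‖ ≤ |K| * dist x y := fun x y =>
    (hK x y).trans (mul_le_mul_of_nonneg_right (le_abs_self K) dist_nonneg)
  exact ⟨Pool.Agent.TH172.FA.two_pi_le S hS (abs_nonneg K) hK' h1 hodd,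
    Pool.Agent.TH172.FA.area_mul_energy S hS (abs_nonneg K) hK' h1 hodd⟩

end Pool.Agent.Results.MP_ecf18f_gt.AreaEnergy
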